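import Pool.Agent.H719.FL.Fin

set_option autoImplicit false

/-!
# Circuits for matrix multiplication which compute few linear forms need about `n ^ (3/2)` products

Circuits (`Circuit`, `Circuit.poly`, `Circuit.nonscalarCount`) are defined in
`Pool.Agent.H522R2.Circuit`; the variables `Vars m` (the entries of two generic `m × m` matrices)
and the entries `entry F m i j` of their product in `Pool.Agent.H88R3.MM.Circ`.
-/

namespace Pool.Agent.Results.MP_e72dc0_lc.FewLinearForms

open Pool.Agent.H88R3.MM Pool.Agent.H522R2 Pool.Agent.H719.FL

/-- the circuit has the entries of the product of two generic `m × m` matrices among the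
polynomials which it computes -/
def Computes {F : Type*} [Field F] {m : ℕ} (C : Circuit F (Vars m)) : Prop :=
  ∀ i j, ∃ k : Fin C.nodes, C.poly k = entry F m i j

/-- the part of degree one in the variables `D` of the polynomial computed at the node `v`, given
by the coefficients of the variables in `D` -/
noncomputable def linPart {F : Type*} [Field F] {m : ℕ} (C : Circuit F (Vars m))
    (D : Finset (Vars m)) (v : Fin C.nodes) : {x // x ∈ D} → F :=
  fun x => (C.poly v).coeff (Finsupp.single x.1 1)

/-- the number of nodes whose linear part in the variables `D` is new: it is not a multiple of a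
variable in `D` or of the linear part in `D` of an earlier node -/
noncomputable def newForms {F : Type*} [Field F] {m : ℕ} (C : Circuit F (Vars m))
    (D : Finset (Vars m)) : ℕ :=
  Nat.card {v : Fin C.nodes // linPart C D v ≠ 0 ∧
    (∀ (x : {x // x ∈ D}) (a : F), linPart C D v ≠ a • Pi.single x 1) ∧
    ∀ u < v, ∀ a : F, linPart C D v ≠ a • linPart C D u}

/-- the number of gates whose polynomial contains a variable from `D` in its part of degree one -/
noncomputable def linearGates {F : Type*} [Field F] {m : ℕ} (C : Circuit F (Vars m))
    (D : Finset (Vars m)) : ℕ :=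
  Nat.card {v : Fin C.nodes // ((∃ i j, C.gate v = Gate.add i j) ∨ ∃ i j, C.gate v = Gate.mul i j) ∧
    linPart C D v ≠ 0}

/-- the entries of the first matrix -/
def first (m : ℕ) : Finset (Vars m) := Finset.univ.image Sum.inl

/-- the entries of the second matrix -/
def second (m : ℕ) : Finset (Vars m) := Finset.univ.image Sum.inr

theorem coeff_eq_D1 {F V : Type*} [Field F] [DecidableEq V] (x : V) (p : MvPolynomial V F) :
    p.coeff (Finsupp.single x 1) = Pool.Agent.W946.Kos.D1 x p := by
  unfold Pool.Agent.W946.Kos.D1
  induction p using MvPolynomial.induction_on' with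
  | monomial u a =>
    rw [MvPolynomial.pderiv_monomial, MvPolynomial.coeff_monomial,
      MvPolynomial.constantCoeff_monomial]
    by_cases h : u = Finsupp.single x 1
    · subst h
      simp
    · rw [if_neg h]
      by_cases hx : u x = 0
      · rw [hx]
        simp
      · rw [if_neg]
        intro h0
        apply h
        ext y
        have := DFunLike.congr_fun h0 y
        simp only [Finsupp.coe_tsub, Pi.sub_apply, Finsupp.coe_zero, Pi.zero_apply] at this
        by_cases hy : x = y
        · subst hy
          simp only [Finsupp.single_eq_same] at this ⊢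
          omega
        · rw [Finsupp.single_apply, if_neg hy] at this ⊢
          omega
  | add p q hp hq =>
    rw [MvPolynomial.coeff_add, map_add, map_add, hp, hq]

theorem linPart_eq {F : Type*} [Field F] {m : ℕ} (C : Circuit F (Vars m))
    (D : Finset (Vars m)) (v : Fin C.nodes) :
    linPart C D v = Pool.Agent.W946.Sz.lin (cut C D) v := by
  funext x
  rw [cut_lin, linPart, coeff_eq_D1]
  rfl

theorem newForms_eq {F : Type*} [Field F] {m : ℕ} (C : Circuit F (Vars m))
    (D : Finset (Vars m)) : newForms C D = (Pool.Agent.W946.Sz.CC (cut C D)).card := by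
  classical
  unfold newForms Pool.Agent.W946.Sz.CC
  rw [← Fintype.card_subtype, Nat.card_eq_fintype_card]
  refine Fintype.card_congr (Equiv.subtypeEquivRight fun v => ?_)
  unfold Pool.Agent.W946.Sz.IsLeader
  simp only [linPart_eq]

theorem newForms_le {F : Type*} [Field F] {m : ℕ} (C : Circuit F (Vars m))
    (D : Finset (Vars m)) : newForms C D ≤ linearGates C D := by
  refine Nat.card_le_card_of_injective (fun v => ⟨v.1, ?_, v.2.1⟩) fun v w h => ?_
  · have h1 := v.2
    rw [linPart_eq] at h1
    cases hg : C.gate v.1 with
    | var z =>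
      exfalso
      by_cases hz : z ∈ D
      · refine h1.2.1 ⟨z, hz⟩ 1 ?_
        funext x
        rw [one_smul, cut_lin]
        simp only [Pool.Agent.W946.Sz.lin, Pool.Agent.W946.Sz.poly_var hg, D1_X', Pi.single_apply,
          Subtype.ext_iff]
      · refine h1.1 ?_
        funext x
        rw [cut_lin]
        simp only [Pool.Agent.W946.Sz.lin, Pool.Agent.W946.Sz.poly_var hg, D1_X', Pi.zero_apply]
        rw [if_neg]
        rintro rfl
        exact hz x.2
    | const c =>
      exfalso
      refine h1.1 ?_
      funext x
      rw [cut_lin]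
      simp only [Pool.Agent.W946.Sz.lin, Pool.Agent.W946.Sz.poly_const hg,
        Pool.Agent.W946.Kos.D1_C, Pi.zero_apply]
    | add i j => exact Or.inl ⟨i, j, rfl⟩
    | mul i j => exact Or.inr ⟨i, j, rfl⟩
  · exact Subtype.ext (congrArg (fun t => t.1) h)

universe u

/-- For every `η > 0` there is a constant `K` such that for every circuit over a field which
computes the product of two generic `m × m` matrices:
* if fewer than `(3 - η) |D|` new linear forms in a nonempty set `D` of entries of the two matrices
  are computed, then `m |D| ≤ K (1 + log |D|) N`, where `N` is the number of the nonscalar products;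
* if at most `(6 - η) m ^ 2` gates compute polynomials with a nonzero linear part, or at most
  `(3 - η) m ^ 2` gates compute polynomials which contain entries of the first matrix in the linear
  part, or the same for the second matrix, then `m ^ 3 ≤ K (1 + log m) N`. -/
theorem result (η : ℝ) (hη : 0 < η) : ∃ K : ℝ, 0 < K ∧ ∀ (F : Type u) [Field F] (m : ℕ)
    (C : Circuit F (Vars m)), Computes C →
    (∀ D : Finset (Vars m), D.Nonempty → (newForms C D : ℝ) ≤ (3 - η) * D.card →
      (m : ℝ) * D.card ≤ K * (1 + Real.log D.card) * C.nonscalarCount) ∧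
    ((linearGates C Finset.univ : ℝ) ≤ (6 - η) * (m : ℝ) ^ 2 ∨
      (linearGates C (first m) : ℝ) ≤ (3 - η) * (m : ℝ) ^ 2 ∨
      (linearGates C (second m) : ℝ) ≤ (3 - η) * (m : ℝ) ^ 2 →
      (m : ℝ) ^ 3 ≤ K * (1 + Real.log m) * C.nonscalarCount) := by
  obtain ⟨K, hK, h⟩ := bound.{u} (η / 2) (by positivity)
  refine ⟨2 * K, by positivity, fun F _ m C hC => ?_⟩
  have key : ∀ D : Finset (Vars m), D.Nonempty → (newForms C D : ℝ) ≤ (3 - η / 2) * D.card →
      (m : ℝ) * D.card ≤ K * (1 + Real.log D.card) * C.nonscalarCount := by
    intro D hD hD'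
    refine h F m C hC D hD ?_
    rw [← newForms_eq]
    exact hD'
  refine ⟨fun D hD hD' => ?_, fun hor => ?_⟩
  · have hD0 : (0 : ℝ) ≤ D.card := by positivity
    have h1 := key D hD (hD'.trans (mul_le_mul_of_nonneg_right (by linarith) hD0))
    have h2 : 0 ≤ K * (1 + Real.log D.card) * C.nonscalarCount := by
      have : (0 : ℝ) ≤ m := by positivity
      exact le_trans (mul_nonneg this hD0) h1
    linarith
  rcases Nat.eq_zero_or_pos m with hm | hm
  · subst hm
    simp only [Nat.cast_zero, Real.log_zero, add_zero, mul_one]
    norm_num
    positivity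
  have hm1 : (1 : ℝ) ≤ m := by exact_mod_cast hm
  have hlog : 0 ≤ Real.log m := Real.log_nonneg hm1
  have hns : (0 : ℝ) ≤ C.nonscalarCount := by positivity
  have e1 : ((first m).card : ℝ) = (m : ℝ) ^ 2 := by
    rw [first, Finset.card_image_of_injective _ Sum.inl_injective, Finset.card_univ,
      Fintype.card_prod, Fintype.card_fin]
    push_cast
    ring
  have e2 : ((second m).card : ℝ) = (m : ℝ) ^ 2 := by
    rw [second, Finset.card_image_of_injective _ Sum.inr_injective, Finset.card_univ,
      Fintype.card_prod, Fintype.card_fin]
    push_cast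
    ring
  have e3 : ((Finset.univ : Finset (Vars m)).card : ℝ) = 2 * (m : ℝ) ^ 2 := by
    rw [Finset.card_univ, Fintype.card_sum, Fintype.card_prod, Fintype.card_fin]
    push_cast
    ring
  have l1 : Real.log ((m : ℝ) ^ 2) = 2 * Real.log m := by
    rw [Real.log_pow]
    norm_num
  have side : ∀ D : Finset (Vars m), (D.card : ℝ) = (m : ℝ) ^ 2 →
      (linearGates C D : ℝ) ≤ (3 - η) * (m : ℝ) ^ 2 →
      (m : ℝ) ^ 3 ≤ 2 * K * (1 + Real.log m) * C.nonscalarCount := by
    intro D hD hD'
    have hne : D.Nonempty := by
      rw [← Finset.card_pos]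
      have : (0 : ℝ) < D.card := by rw [hD]; positivity
      exact_mod_cast this
    have h1 : (newForms C D : ℝ) ≤ linearGates C D := by exact_mod_cast newForms_le C D
    have h2 := key D hne (by
      rw [hD]
      refine h1.trans (hD'.trans (mul_le_mul_of_nonneg_right (by linarith) (by positivity))))
    rw [hD, l1] at h2
    calc (m : ℝ) ^ 3 = m * m ^ 2 := by ring
      _ ≤ K * (1 + 2 * Real.log m) * C.nonscalarCount := h2
      _ ≤ 2 * K * (1 + Real.log m) * C.nonscalarCount := by
        refine mul_le_mul_of_nonneg_right ?_ hns
        nlinarith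
  rcases hor with h1 | h1 | h1
  · have hne : (Finset.univ : Finset (Vars m)).Nonempty := by
      rw [← Finset.card_pos]
      have : (0 : ℝ) < (Finset.univ : Finset (Vars m)).card := by rw [e3]; positivity
      exact_mod_cast this
    have h2 : (newForms C Finset.univ : ℝ) ≤ linearGates C Finset.univ := by
      exact_mod_cast newForms_le C Finset.univ
    have h3 := key Finset.univ hne (by
      rw [e3]
      refine h2.trans (h1.trans (le_of_eq ?_))
      ring)
    rw [e3, Real.log_mul (by norm_num) (by positivity), l1] at h3
    have hlog2 : Real.log 2 ≤ 1 := by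
      have := Real.log_le_sub_one_of_pos (show (0 : ℝ) < 2 by norm_num)
      linarith
    have h4 : K * (1 + (Real.log 2 + 2 * Real.log m)) * C.nonscalarCount ≤
        K * (2 * (1 + Real.log m)) * C.nonscalarCount := by
      refine mul_le_mul_of_nonneg_right (mul_le_mul_of_nonneg_left (by linarith) hK.le) hns
    have h5 : (0 : ℝ) ≤ (m : ℝ) ^ 3 := by positivity
    nlinarith
  · exact side _ e1 h1
  · exact side _ e2 h1

end Pool.Agent.Results.MP_e72dc0_lc.FewLinearForms
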