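import Pool.Agent.Helper343_LG.Fin

set_option autoImplicit false

/-!
# Multiplication in large linear groups is as hard as matrix multiplication

Definitions: `mats`, `Invariant`, `Irreducible`, `CompletelyReducible`, `dimC`, `Gives` are in
`Pool.Agent.Helper343_LG.Defs`, `cost` in `Pool.Agent.Helper343_LG.Fin`; `Mat n`, `Aff`, `Step`,
`IsRun`, `Computes`, `IsTangent`, `tanSpan` in `Pool.Agent.H515R2.MMR.Circ`, `Lprog` in
`Pool.Agent.H515R2.MMR.Main`, `rk`, `omega` in `Pool.Agent.H515R2.MMR.Rank`; `sizeMM`,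
`Superlinear` in `Pool.Agent.W956.KF.Defs`.
-/

namespace Pool.Agent.Results.MP_e72dc0_lc.LinearGroups

open Module Pool.Agent.H515R2.MMR Pool.Agent.Helper343_LG
open Pool.Agent.W956.KF (sizeMM Superlinear)

/-- Let `G` be a group of invertible complex `n × n` matrices and `dimC G` the dimension of the
complex span of the tangent vectors of `G` at `1` (the dimension of an algebraic group). A program
with `L` steps computes with `L` multiplications and divisions; linear combinations of `1`, the
entries of the inputs `A`, `B` and earlier results are free. `ω` is the exponent of matrix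
multiplication over `ℂ`.

(1) Let `G₁`, `G₂` be irreducible and locally closed, `O` an open set which contains a pair
`(A, B)`, `A ∈ G₁`, `B ∈ G₂`. If for each such pair in `O` at least one of countably many programs
with `L` steps computes `A B` (for example, one of the possible runs of a probabilistic algorithm
with tests and at most `L` multiplications and divisions) then
`L ≥ (dim G₁ / n ^ 2) (dim G₂ / n ^ 2) (n / 6) ^ ω / 32`.
(2) For a completely reducible group `G = G₁ = G₂` this implies `L ≥ (dim G / (6 n)) ^ ω / 32`.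
(3) `cost G` is the number of steps of the best program that computes `A B` for all `A, B ∈ G`.
Let `G n` be completely reducible of dimension at least `ε n ^ 2` for `n ≥ 1`. Then
`(ε / 6) ^ ω n ^ ω / 32 ≤ cost (G n) ≤ rk n` and the growth exponent of `cost (G n)` is `ω`.
(4) Under the assumptions of (3) there is a superlinear lower bound, in the sense of the question,
for the size `S_ℂ(MM_n)` of circuits for the multiplication of generic matrices if and only if
there is one for `cost (G n)`.
(5) Complete reducibility cannot be omitted: for every `n` there is a group of dimension at least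
`⌊n ^ 2 / 4⌋` for which the product is computed without any step. -/
theorem result :
    (∀ (n : ℕ) (G₁ G₂ : Subgroup (GL (Fin n) ℂ)) (O : Set (Mat n × Mat n)) (L : ℕ)
      (s : ℕ → ℕ → Step n) (o : ℕ → Fin n → Fin n → Aff n), 1 ≤ n →
      Irreducible G₁ → Irreducible G₂ → IsLocallyClosed (mats G₁) → IsLocallyClosed (mats G₂) →
      IsOpen O → (∃ A ∈ mats G₁, ∃ B ∈ mats G₂, (A, B) ∈ O) →
      (∀ A ∈ mats G₁, ∀ B ∈ mats G₂, (A, B) ∈ O → ∃ i, Gives L (s i) (o i) A B) →
      (dimC G₁ / (n : ℝ) ^ 2) * (dimC G₂ / (n : ℝ) ^ 2) / 32 * ((n : ℝ) / 6) ^ omega ≤ L) ∧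
    (∀ (n : ℕ) (G : Subgroup (GL (Fin n) ℂ)) (O : Set (Mat n × Mat n)) (L : ℕ)
      (s : ℕ → ℕ → Step n) (o : ℕ → Fin n → Fin n → Aff n), 1 ≤ n →
      CompletelyReducible G → IsLocallyClosed (mats G) →
      IsOpen O → (∃ A ∈ mats G, ∃ B ∈ mats G, (A, B) ∈ O) →
      (∀ A ∈ mats G, ∀ B ∈ mats G, (A, B) ∈ O → ∃ i, Gives L (s i) (o i) A B) →
      ((dimC G : ℝ) / (6 * n)) ^ omega / 32 ≤ L) ∧
    (∀ (ε : ℝ) (G : ∀ n : ℕ, Subgroup (GL (Fin n) ℂ)), 0 < ε →
      (∀ n : ℕ, 1 ≤ n → CompletelyReducible (G n) ∧ ε * (n : ℝ) ^ 2 ≤ dimC (G n)) →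
      (∀ n : ℕ, 1 ≤ n → (ε / 6) ^ omega / 32 * (n : ℝ) ^ omega ≤ cost (G n) ∧ cost (G n) ≤ rk n) ∧
      sInf {τ : ℝ | ∃ C : ℝ, ∀ n : ℕ, (cost (G n) : ℝ) ≤ C * (n : ℝ) ^ τ} = omega ∧
      (Superlinear (sizeMM ℂ) ↔ Superlinear fun n => cost (G n))) ∧
    (∀ n : ℕ, ∃ G : Subgroup (GL (Fin n) ℂ), n ^ 2 / 4 ≤ dimC G ∧ cost G = 0) := by
  refine ⟨?_, ?_, ?_, exists_free⟩
  · intro n G₁ G₂ O L s o hn hI₁ hI₂ h₁ h₂ hO hne hall
    exact irreducible_bound hn hI₁ hI₂ (rank_of_countable h₁ h₂ hO hne hall)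
  · intro n G O L s o hn hG h₁ hO hne hall
    exact reducible_bound hn hG (rank_of_countable h₁ h₁ hO hne hall)
  · intro ε G hε hG
    exact ⟨fun n hn => ⟨cost_lower hε hn (hG n hn).1 (hG n hn).2, cost_le_rk (G n)⟩,
      exponent_groups hε G hG, superlinear_iff hε G hG⟩

end Pool.Agent.Results.MP_e72dc0_lc.LinearGroups
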