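import Pool.Agent.helper747_mf.Final

/-! # Matrix functions are as hard as matrix multiplication

Definitions:
* `Pol n`: complex polynomials in the entries of an `n × n` matrix; `val f A` is the value of `f`
  at `A` (`Pool/Agent/helper747_sp/Inv.lean`);
* `fn N D A`: the value `N (A) / D (A)` at `A` of the rational matrix function `F = N / D`, where
  `N` is a matrix of `n ^ 2` polynomials and `D ≠ 0` a polynomial; `Equivariant N D`:
  `F (g A h) = g F (A) h` for `g h = 1` whenever `F` is defined at `A` and at `g A h`
  (`Pool/Agent/helper747_mf/Base.lean`);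
* `Comp N D L`: all `n ^ 2` entries of `F (A)` are computed from the entries of `A` by a
  straight-line program with `L` multiplications and divisions in the field of rational functions;
  complex linear combinations of `1`, the entries and earlier results are free
  (`Pool/Agent/helper747_mf/Slp2.lean`, with `SLPComputes` of the starting file
  `Pool/Agent/H53R3/Slp.lean`);
* `sq n`: the entries of the square of a matrix (`Pool/Agent/helper747_mf/Final.lean`);
* `rk n`: the tensor rank of `⟨n, n, n⟩` over `ℂ` (starting file
  `Pool/Agent/H515R2/MMR/Rank.lean`).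
-/

set_option autoImplicit false

namespace Pool.Agent.Results.MP_e72dc0_lc.MatrixFunctions

open Pool.Agent.helper747_sp
open Pool.Agent.helper747_mf
open Pool.Agent.H515R2.MMR (rk)

/-- Let `n ≥ 9` and let `F` be a rational function from complex `n × n` matrices to `n × n`
matrices that commutes with conjugation. If `1`, `A`, `F (A)` are linearly independent for some
`A`, then every straight-line program for the entries of `F (A)` has at least `rk (n / 3) / 6`
multiplications and divisions. The square `F (A) = A ^ 2` is such a function and is computed with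
`rk n` of them. -/
theorem result {n : ℕ} (hn : 9 ≤ n) :
    (∀ (N : Fin n → Fin n → Pol n) (D : Pol n) (L : ℕ), D ≠ 0 → Equivariant N D →
      (∃ A, val D A ≠ 0 ∧ LinearIndependent ℂ ![1, A, fn N D A]) → Comp N D L →
        rk (n / 3) ≤ 6 * L) ∧
      ((∀ A, fn (sq n) 1 A = A * A) ∧ Equivariant (sq n) 1 ∧
        (∃ A, val (1 : Pol n) A ≠ 0 ∧ LinearIndependent ℂ ![1, A, fn (sq n) 1 A]) ∧
        Comp (sq n) 1 (rk n)) := by
  refine ⟨fun N D L hD hF hA hL => ?_, fn_sq, equivariant_sq, independent_sq (by omega),
    comp_sq (Pool.Agent.H515R2.MMR.hasRank_rk n)⟩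
  obtain ⟨A, -, hA⟩ := hA
  obtain ⟨p, q, r, hmm⟩ := exists_minor hA
  exact Nat.sInf_le (matrix_function (by omega) (by omega) hD hF hmm hL)

end Pool.Agent.Results.MP_e72dc0_lc.MatrixFunctions
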