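import Pool.Agent.H719.OS.Three

set_option autoImplicit false

/-!
# Matrix multiplication with one shallow stage takes superlinearly many products

`Network F ι` (a network with inputs `ι`, whose gates have arbitrary fan-in and compute functions of
the values on their incoming wires) and `Shallow w h φ` (the functions `φ k` are computed by such a
network with at most `w` wires, in which every directed path has at most `h` gates used at least
twice, or every directed path has at most `h` gates with at least two incoming wires; if the field
is finite the gates are arbitrary, otherwise they compute polynomials) are defined in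
`Pool.Agent.H719.OS.Wiring`.
-/

namespace Pool.Agent.Results.MP_e72dc0_lc.ShallowStages

open Finset Pool.Agent.H719.OS

/-- An algorithm for the product of two `m × m` matrices `A` and `B` over the field `F`.  Each
product has two factors, numbered `0` and `1`; each factor is the sum of a function of `A` and a
function of `B`, which may be arbitrary.  The result is a fixed linear combination of the products,
plus an arbitrary function of `A`, plus an arbitrary function of `B`. -/
structure Algorithm (F : Type*) [Field F] (m : ℕ) where
  /-- the number of products -/
  products : ℕ
  /-- the part of a factor which depends on the first matrix -/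
  ofA : Fin products → Fin 2 → Matrix (Fin m) (Fin m) F → F
  /-- the part of a factor which depends on the second matrix -/
  ofB : Fin products → Fin 2 → Matrix (Fin m) (Fin m) F → F
  /-- the coefficients of a product in the entries of the result -/
  out : Fin products → Matrix (Fin m) (Fin m) F
  /-- the function of the first matrix in the result -/
  outA : Matrix (Fin m) (Fin m) F → Matrix (Fin m) (Fin m) F
  /-- the function of the second matrix in the result -/
  outB : Matrix (Fin m) (Fin m) F → Matrix (Fin m) (Fin m) F

variable {F : Type*} [Field F] {m : ℕ}

/-- The algorithm computes the product of any two matrices. -/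
def Algorithm.Multiplies (C : Algorithm F m) : Prop :=
  ∀ A B : Matrix (Fin m) (Fin m) F, A * B =
    ∑ l, ((C.ofA l 0 A + C.ofB l 0 B) * (C.ofA l 1 A + C.ofB l 1 B)) • C.out l +
      C.outA A + C.outB B

/-- The first stage: the functions of the entries of `A` in the factors. -/
def Algorithm.stageA (C : Algorithm F m) (k : Fin C.products × Fin 2) (x : Fin m × Fin m → F) : F :=
  C.ofA k.1 k.2 (Matrix.of fun i j => x (i, j))

/-- The second stage: the functions of the entries of `B` in the factors. -/
def Algorithm.stageB (C : Algorithm F m) (k : Fin C.products × Fin 2) (x : Fin m × Fin m → F) : F :=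
  C.ofB k.1 k.2 (Matrix.of fun i j => x (i, j))

/-- The last stage: the linear combinations of the values `x` of the products in the entries of the
result. -/
def Algorithm.stageOut (C : Algorithm F m) (p : Fin m × Fin m) (x : Fin C.products → F) : F :=
  ∑ l, x l * C.out l p.1 p.2

universe u

/-- For all constants `c`, `h` and `L`: if `m` is large and an algorithm multiplies `m × m` matrices
over some field, and one of its three stages (the functions of `A`, the functions of `B`, the
combinations of the products) is computed by a network with at most `c m ^ 2` wires which is shallow
with parameter `h`, then it has more than `L m ^ 2` products, whatever the other two stages are. -/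
theorem result (c h L : ℕ) : ∃ m₀ : ℕ, ∀ (F : Type u) [Field F] (m : ℕ) (C : Algorithm F m),
    m₀ ≤ m → C.Multiplies →
    Shallow (c * m ^ 2) h C.stageA ∨ Shallow (c * m ^ 2) h C.stageB ∨
      Shallow (c * m ^ 2) h C.stageOut →
    L * m ^ 2 < C.products := by
  obtain ⟨m₁, hm₁⟩ := first_stage.{u} c h L
  obtain ⟨m₂, hm₂⟩ := last_stage.{u} c h L
  refine ⟨max m₁ m₂, fun F _ m C hm hC hsh => ?_⟩
  have hC' : Mixed C.ofA C.ofB C.out C.outA C.outB := hC
  have e1 : m₁ ≤ m := (le_max_left _ _).trans hm
  have e2 : m₂ ≤ m := (le_max_right _ _).trans hm
  rcases hsh with hsh | hsh | hsh
  · exact hm₁ F m e1 _ _ _ _ _ _ hC' hsh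
  · exact hm₁ F m e1 _ _ _ _ _ _ hC'.transpose
      (Shallow.transpose (φ := fun (k : Fin C.products × Fin 2) A => C.ofB k.1 k.2 A) hsh)
  · exact hm₂ F m e2 _ _ _ _ _ _ hC' hsh

end Pool.Agent.Results.MP_e72dc0_lc.ShallowStages
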